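import Mathlib

namespace Pool.Agent.Results.MP_2b3591_co.ExpGrowth

open Finset

/-- `F` consists of `k`-element sets, and any two members of `F` (a member and
itself included) have a common element. -/
def IsUniformIntersecting {n : ℕ} (k : ℕ) (F : Finset (Finset (Fin n))) : Prop :=
  (∀ A ∈ F, A.card = k) ∧ ∀ A ∈ F, ∀ A' ∈ F, (A ∩ A').Nonempty

/-- The covering number of `F`: the least size of a set meeting every member of `F`. -/
noncomputable def coveringNumber {n : ℕ} (F : Finset (Finset (Fin n))) : ℕ :=
  sInf {t | ∃ T : Finset (Fin n), T.card = t ∧ ∀ A ∈ F, (T ∩ A).Nonempty}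

/-- The subfamily of the members of `F` that are disjoint from `B`. -/
def avoiding {n : ℕ} (F : Finset (Finset (Fin n))) (B : Finset (Fin n)) :
    Finset (Finset (Fin n)) :=
  F.filter (fun A => A ∩ B = ∅)

/-- The minimum over all `a`-element sets `B` of the number of members of `F` disjoint
from `B`. -/
noncomputable def minAvoiding {n : ℕ} (F : Finset (Finset (Fin n))) (a : ℕ) : ℕ :=
  sInf {s | ∃ B : Finset (Fin n), B.card = a ∧ s = (avoiding F B).card}

/-- `m k a` is the maximum of `minAvoiding F a` over all `n` and all intersecting families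
`F` of `k`-element subsets of an `n`-element set with covering number `k`. -/
noncomputable def m (k a : ℕ) : ℕ :=
  sSup {r | ∃ (n : ℕ) (F : Finset (Finset (Fin n))),
    IsUniformIntersecting k F ∧ coveringNumber F = k ∧ r = minAvoiding F a}

/-! ### The Erdős–Lovász bound `|F| ≤ k ^ k` -/

lemma card_le_of_cover {n k : ℕ} (F : Finset (Finset (Fin n)))
    (hk : ∀ A ∈ F, A.card = k)
    (hcov : ∀ S : Finset (Fin n), S.card < k → ∃ A ∈ F, Disjoint A S)
    (hint : ∀ A ∈ F, ∀ A' ∈ F, (A ∩ A').Nonempty) :
    ∀ (j : ℕ) (S : Finset (Fin n)), S.card + j = k →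
      (F.filter (fun A => S ⊆ A)).card ≤ k ^ j := by
  intro j
  induction j with
  | zero =>
    intro S hS
    have : F.filter (fun A => S ⊆ A) ⊆ {S} := by
      intro A hA
      rw [mem_filter] at hA
      rw [mem_singleton]
      exact (Finset.eq_of_subset_of_card_le hA.2 (by rw [hk A hA.1]; omega)).symm
    calc _ ≤ ({S} : Finset (Finset (Fin n))).card := card_le_card this
      _ = 1 := by simp
      _ ≤ k ^ 0 := by simp
  | succ j ih =>
    intro S hS
    obtain ⟨A0, hA0, hd⟩ := hcov S (by omega)
    have hsub : F.filter (fun A => S ⊆ A) ⊆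
        A0.biUnion (fun x => F.filter (fun A => insert x S ⊆ A)) := by
      intro A hA
      rw [mem_filter] at hA
      obtain ⟨x, hx⟩ := hint A hA.1 A0 hA0
      rw [mem_inter] at hx
      rw [mem_biUnion]
      refine ⟨x, hx.2, ?_⟩
      rw [mem_filter]
      refine ⟨hA.1, ?_⟩
      intro y hy
      rw [mem_insert] at hy
      rcases hy with rfl | hy
      · exact hx.1
      · exact hA.2 hy
    calc _ ≤ _ := card_le_card hsub
      _ ≤ ∑ x ∈ A0, (F.filter (fun A => insert x S ⊆ A)).card := card_biUnion_le
      _ ≤ ∑ x ∈ A0, k ^ j := by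
          apply sum_le_sum
          intro x hx
          apply ih
          rw [card_insert_of_notMem]
          · omega
          · intro hxS
            exact (Finset.disjoint_left.mp hd hx) hxS
      _ = k ^ (j + 1) := by
          rw [sum_const, hk A0 hA0, smul_eq_mul, pow_succ, mul_comm]

/-! ### Abstract families -/

/-- Auxiliary: there is an intersecting `k`-uniform family such that every set `B` of fewer than
`k` elements is disjoint from at least `a * (k - |B|)` members. -/
def HasFam (k a : ℕ) : Prop :=
  ∃ (V : Type) (_ : Fintype V) (_ : DecidableEq V) (F : Finset (Finset V)),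
    (∀ A ∈ F, A.card = k) ∧ (∀ A ∈ F, ∀ A' ∈ F, (A ∩ A').Nonempty) ∧
    ∀ B : Finset V, B.card < k → a * (k - B.card) ≤ (F.filter (fun S => Disjoint S B)).card

lemma card_fixed {N : ℕ} (S : Finset (Fin N)) (g0 : Fin N → Bool) :
    ((univ : Finset (Fin N → Bool)).filter (fun g => ∀ i ∈ S, g i = g0 i)).card
      = 2 ^ (N - S.card) := by
  have h : ((univ : Finset (Fin N → Bool)).filter (fun g => ∀ i ∈ S, g i = g0 i))
      = Fintype.piFinset (fun i => if i ∈ S then {g0 i} else (univ : Finset Bool)) := by
    ext g
    simp only [mem_filter, mem_univ, true_and, Fintype.mem_piFinset]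
    constructor
    · intro h i
      by_cases hi : i ∈ S
      · simp [hi, h i hi]
      · simp [hi]
    · intro h i hi
      have := h i
      simpa [hi] using this
  rw [h, Fintype.card_piFinset]
  have h2 : ∀ i : Fin N, (if i ∈ S then {g0 i} else (univ : Finset Bool)).card
      = if i ∈ S then 1 else 2 := by
    intro i
    by_cases hi : i ∈ S
    · simp [hi]
    · simp [hi]
  rw [Finset.prod_congr rfl (fun i _ => h2 i), Finset.prod_ite]
  simp only [prod_const_one, prod_const, one_mul]
  congr 1
  have : (univ.filter (fun i => i ∉ S)) = Sᶜ := by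
    ext i; simp
  rw [this, card_compl, Fintype.card_fin]

/-- the transversal attached to a choice function -/
def tA {V : Type} [DecidableEq V] {N : ℕ} (g : Fin N → Bool) :
    Finset (V ⊕ (Fin N × Bool)) :=
  univ.image (fun i => Sum.inr (i, g i))

/-- a member of the old family together with one pair -/
def tB {V : Type} [DecidableEq V] {N : ℕ} (p : Finset V × Fin N) :
    Finset (V ⊕ (Fin N × Bool)) :=
  p.1.image Sum.inl ∪ {Sum.inr (p.2, true), Sum.inr (p.2, false)}

lemma step {m a a' : ℕ} (hm : 3 ≤ m) (hfam : HasFam m a) (hcap : 2 * a' ≤ 2 ^ (m - 1))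
    (hineq : ∀ d d' : ℕ, 1 ≤ d → 1 ≤ d' → d' ≤ m → d ≤ d' + 2 →
      a' * d ≤ (d + m - d') * d' * a) : HasFam (m + 2) a' := by
  classical
  obtain ⟨V, _, _, F, hcard, hint, havoid⟩ := hfam
  let maj : (Fin (m + 2) → Bool) → Prop := fun g =>
    (g ⟨0, by omega⟩ = true ∧ g ⟨1, by omega⟩ = true) ∨
    (g ⟨0, by omega⟩ = true ∧ g ⟨2, by omega⟩ = true) ∨
    (g ⟨1, by omega⟩ = true ∧ g ⟨2, by omega⟩ = true)
  have tAinj : Function.Injective (tA (V := V) (N := m + 2)) := by
    intro g g' h
    ext i
    have h1 : (Sum.inr (i, g i) : V ⊕ (Fin (m + 2) × Bool)) ∈ tA (V := V) g' := by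
      rw [← h]
      exact mem_image.mpr ⟨i, mem_univ _, rfl⟩
    obtain ⟨j, _, hj⟩ := mem_image.mp h1
    have := Sum.inr.inj hj
    rw [Prod.mk.injEq] at this
    rw [← this.2, this.1]
  have tBinj : Function.Injective (tB (V := V) (N := m + 2)) := by
    intro p p' h
    have hl : ∀ q : Finset V × Fin (m + 2), ∀ v : V,
        (Sum.inl v : V ⊕ (Fin (m + 2) × Bool)) ∈ tB q ↔ v ∈ q.1 := by
      intro q v
      simp [tB]
    have hr : ∀ q : Finset V × Fin (m + 2), ∀ i : Fin (m + 2),
        (Sum.inr (i, true) : V ⊕ (Fin (m + 2) × Bool)) ∈ tB q ↔ i = q.2 := by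
      intro q i
      simp [tB]
    have h1 : p.1 = p'.1 := by
      ext v
      rw [← hl p v, ← hl p' v, h]
    have h2 : p.2 = p'.2 := by
      rw [← hr p' p.2, ← h, hr]
    exact Prod.ext h1 h2
  refine ⟨V ⊕ (Fin (m + 2) × Bool), inferInstance, inferInstance,
    (univ.filter maj).image tA ∪ (F ×ˢ univ).image tB, ?_, ?_, ?_⟩
  · intro A hA
    rw [mem_union, mem_image, mem_image] at hA
    rcases hA with ⟨g, -, rfl⟩ | ⟨p, hp, rfl⟩
    · unfold tA
      rw [card_image_of_injective]
      · simp
      · intro i j hij
        have := Sum.inr.inj hij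
        rw [Prod.mk.injEq] at this
        exact this.1
    · rw [mem_product] at hp
      unfold tB
      rw [card_union_of_disjoint]
      · rw [card_image_of_injective _ Sum.inl_injective, hcard _ hp.1]
        rw [card_pair]
        simp
      · rw [Finset.disjoint_left]
        intro x hx hx'
        rw [mem_image] at hx
        obtain ⟨v, -, rfl⟩ := hx
        simp at hx'
  · -- intersecting
    have hAA : ∀ g g' : Fin (m + 2) → Bool, maj g → maj g' →
        (tA (V := V) g ∩ tA g').Nonempty := by
      intro g g' hg hg'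
      have : ∃ i, g i = g' i := by
        by_contra hcon
        push Not at hcon
        have h0 := hcon ⟨0, by omega⟩
        have h1 := hcon ⟨1, by omega⟩
        have h2 := hcon ⟨2, by omega⟩
        simp only [maj] at hg hg'
        revert hg hg' h0 h1 h2
        generalize g ⟨0, by omega⟩ = x0
        generalize g ⟨1, by omega⟩ = x1
        generalize g ⟨2, by omega⟩ = x2
        generalize g' ⟨0, by omega⟩ = y0
        generalize g' ⟨1, by omega⟩ = y1
        generalize g' ⟨2, by omega⟩ = y2
        revert x0 x1 x2 y0 y1 y2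
        decide
      obtain ⟨i, hi⟩ := this
      refine ⟨Sum.inr (i, g i), ?_⟩
      rw [mem_inter]
      constructor
      · exact mem_image.mpr ⟨i, mem_univ _, rfl⟩
      · exact mem_image.mpr ⟨i, mem_univ _, by rw [hi]⟩
    have hAB : ∀ (g : Fin (m + 2) → Bool) (p : Finset V × Fin (m + 2)),
        (tA (V := V) g ∩ tB p).Nonempty := by
      intro g p
      refine ⟨Sum.inr (p.2, g p.2), ?_⟩
      rw [mem_inter]
      constructor
      · exact mem_image.mpr ⟨p.2, mem_univ _, rfl⟩
      · unfold tB
        rw [mem_union]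
        right
        cases g p.2 <;> simp
    have hBB : ∀ p p' : Finset V × Fin (m + 2), p.1 ∈ F → p'.1 ∈ F →
        (tB (V := V) p ∩ tB p').Nonempty := by
      intro p p' hp hp'
      obtain ⟨v, hv⟩ := hint _ hp _ hp'
      rw [mem_inter] at hv
      refine ⟨Sum.inl v, ?_⟩
      rw [mem_inter]
      constructor
      · exact mem_union_left _ (mem_image_of_mem _ hv.1)
      · exact mem_union_left _ (mem_image_of_mem _ hv.2)
    intro A hA A' hA'
    rw [mem_union, mem_image, mem_image] at hA hA'
    rcases hA with ⟨g, hg, rfl⟩ | ⟨p, hp, rfl⟩ <;> rcases hA' with ⟨g', hg', rfl⟩ | ⟨p', hp', rfl⟩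
    · exact hAA g g' (mem_filter.mp hg).2 (mem_filter.mp hg').2
    · exact hAB g p'
    · rw [inter_comm]; exact hAB g' p
    · exact hBB p p' (mem_product.mp hp).1 (mem_product.mp hp').1
  · -- counting
    intro B hB
    have hsum : B.toLeft.card + B.toRight.card = B.card := Finset.card_toLeft_add_card_toRight
    set B0 := B.toLeft with hB0
    set B2 := B.toRight with hB2
    by_cases hcase : B0.card < m
    · -- type B members
      have hsub : ((F.filter (fun S => Disjoint S B0)) ×ˢ
          (univ.filter (fun i : Fin (m + 2) => (i, true) ∉ B2 ∧ (i, false) ∉ B2))).image tB ⊆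
          ((univ.filter maj).image tA ∪ (F ×ˢ univ).image tB).filter (fun S => Disjoint S B) := by
        intro X hX
        rw [mem_image] at hX
        obtain ⟨p, hp, rfl⟩ := hX
        rw [mem_product, mem_filter, mem_filter] at hp
        rw [mem_filter]
        refine ⟨mem_union_right _ (mem_image_of_mem _ (mem_product.mpr ⟨hp.1.1, mem_univ _⟩)), ?_⟩
        rw [Finset.disjoint_left]
        intro x hx hxB
        unfold tB at hx
        rw [mem_union] at hx
        rcases hx with hx | hx
        · rw [mem_image] at hx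
          obtain ⟨v, hv, rfl⟩ := hx
          have : v ∈ B0 := by rw [hB0, Finset.mem_toLeft]; exact hxB
          exact (Finset.disjoint_left.mp hp.1.2 hv) this
        · rw [mem_insert, mem_singleton] at hx
          rcases hx with rfl | rfl
          · exact hp.2.2.1 (by rw [hB2, Finset.mem_toRight]; exact hxB)
          · exact hp.2.2.2 (by rw [hB2, Finset.mem_toRight]; exact hxB)
      have hcount := card_le_card hsub
      rw [card_image_of_injective _ tBinj, card_product] at hcount
      have hpairs : (m + 2) - B2.card ≤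
          (univ.filter (fun i : Fin (m + 2) => (i, true) ∉ B2 ∧ (i, false) ∉ B2)).card := by
        have hcompl : (univ.filter (fun i : Fin (m + 2) => (i, true) ∉ B2 ∧ (i, false) ∉ B2))ᶜ
            ⊆ B2.image Prod.fst := by
          intro i hi
          rw [mem_compl, mem_filter] at hi
          push Not at hi
          have hi' := hi (mem_univ _)
          rw [mem_image]
          by_cases ht : (i, true) ∈ B2
          · exact ⟨_, ht, rfl⟩
          · exact ⟨_, hi' ht, rfl⟩
        have h1 := card_le_card hcompl
        rw [card_compl, Fintype.card_fin] at h1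
        have h2 : (B2.image Prod.fst).card ≤ B2.card := card_image_le
        omega
      have hF := havoid B0 hcase
      refine le_trans ?_ hcount
      refine le_trans ?_ (Nat.mul_le_mul hF hpairs)
      have hkey := hineq (m + 2 - B.card) (m - B0.card) (by omega) (by omega) (by omega) (by omega)
      refine le_trans hkey ?_
      have e1 : (m + 2 - B.card) + m - (m - B0.card) = m + 2 - B2.card := by omega
      rw [e1]
      apply le_of_eq
      ring
    · -- type A members
      have hB2c : B2.card ≤ 1 := by omega
      have hex : ∃ (S : Finset (Fin (m + 2))) (g0 : Fin (m + 2) → Bool), S.card ≤ 3 ∧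
          ∀ g : Fin (m + 2) → Bool, (∀ i ∈ S, g i = g0 i) →
            maj g ∧ ∀ i, (i, g i) ∉ B2 := by
        rcases Nat.eq_zero_or_pos B2.card with h0 | hpos
        · rw [card_eq_zero] at h0
          refine ⟨{⟨0, by omega⟩, ⟨1, by omega⟩, ⟨2, by omega⟩}, fun _ => true, card_le_three, ?_⟩
          intro g hg
          constructor
          · left
            exact ⟨hg _ (by simp), hg _ (by simp)⟩
          · intro i
            rw [h0]
            simp
        · have h1 : B2.card = 1 := by omega
          rw [card_eq_one] at h1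
          obtain ⟨⟨j, b⟩, hjb⟩ := h1
          by_cases hj0 : j = ⟨0, by omega⟩
          · refine ⟨{⟨0, by omega⟩, ⟨1, by omega⟩, ⟨2, by omega⟩},
              fun i => if i = j then !b else true, card_le_three, ?_⟩
            intro g hg
            have g0 := hg ⟨0, by omega⟩ (by simp)
            have g1 := hg ⟨1, by omega⟩ (by simp)
            have g2 := hg ⟨2, by omega⟩ (by simp)
            subst hj0
            simp at g0 g1 g2
            refine ⟨Or.inr (Or.inr ⟨g1, g2⟩), ?_⟩
            intro i hi
            rw [hjb, mem_singleton, Prod.mk.injEq] at hi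
            rw [hi.1] at hi
            have := hi.2
            simp [g0] at this
          · by_cases hj1 : j = ⟨1, by omega⟩
            · refine ⟨{⟨0, by omega⟩, ⟨1, by omega⟩, ⟨2, by omega⟩},
                fun i => if i = j then !b else true, card_le_three, ?_⟩
              intro g hg
              have g0 := hg ⟨0, by omega⟩ (by simp)
              have g1 := hg ⟨1, by omega⟩ (by simp)
              have g2 := hg ⟨2, by omega⟩ (by simp)
              subst hj1
              simp at g0 g1 g2
              refine ⟨Or.inr (Or.inl ⟨g0, g2⟩), ?_⟩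
              intro i hi
              rw [hjb, mem_singleton, Prod.mk.injEq] at hi
              rw [hi.1] at hi
              have := hi.2
              simp [g1] at this
            · refine ⟨{⟨0, by omega⟩, ⟨1, by omega⟩, j},
                fun i => if i = j then !b else true, card_le_three, ?_⟩
              intro g hg
              have g0 := hg ⟨0, by omega⟩ (by simp)
              have g1 := hg ⟨1, by omega⟩ (by simp)
              have g2 := hg j (by simp)
              simp only [if_neg (Ne.symm hj0)] at g0
              simp only [if_neg (Ne.symm hj1)] at g1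
              simp only [if_true] at g2
              refine ⟨Or.inl ⟨g0, g1⟩, ?_⟩
              intro i hi
              rw [hjb, mem_singleton, Prod.mk.injEq] at hi
              rw [hi.1] at hi
              have := hi.2
              simp [g2] at this
      obtain ⟨S, g0, hS, hgood⟩ := hex
      have hsub : ((univ : Finset (Fin (m + 2) → Bool)).filter
          (fun g => ∀ i ∈ S, g i = g0 i)).image tA ⊆
          ((univ.filter maj).image tA ∪ (F ×ˢ univ).image tB).filter (fun S => Disjoint S B) := by
        intro X hX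
        rw [mem_image] at hX
        obtain ⟨g, hg, rfl⟩ := hX
        rw [mem_filter] at hg
        obtain ⟨hmaj, hav⟩ := hgood g hg.2
        rw [mem_filter]
        refine ⟨mem_union_left _ (mem_image_of_mem _ (mem_filter.mpr ⟨mem_univ _, hmaj⟩)), ?_⟩
        rw [Finset.disjoint_left]
        intro x hx hxB
        unfold tA at hx
        rw [mem_image] at hx
        obtain ⟨i, -, rfl⟩ := hx
        exact hav i (by rw [hB2, Finset.mem_toRight]; exact hxB)
      have hcount := card_le_card hsub
      rw [card_image_of_injective _ tAinj, card_fixed] at hcount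
      refine le_trans ?_ hcount
      have h1 : m + 2 - B.card ≤ 2 := by omega
      calc a' * (m + 2 - B.card) ≤ a' * 2 := Nat.mul_le_mul_left _ h1
        _ = 2 * a' := by ring
        _ ≤ 2 ^ (m - 1) := hcap
        _ ≤ 2 ^ (m + 2 - S.card) := Nat.pow_le_pow_right (by norm_num) (by omega)

/-! ### Base cases: the projective planes of orders 2 and 3 -/

lemma hasFam_of_lines {N k a : ℕ} (L : Fin N → Finset (Fin N)) (hL : Function.Injective L)
    (hcard : ∀ i, (L i).card = k) (hint : ∀ i j, (L i ∩ L j).Nonempty)
    (havoid : ∀ B : Finset (Fin N), B.card < k →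
      a * (k - B.card) ≤ (univ.filter (fun i => Disjoint (L i) B)).card) : HasFam k a := by
  refine ⟨Fin N, inferInstance, inferInstance, univ.image L, ?_, ?_, ?_⟩
  · intro A hA
    obtain ⟨i, -, rfl⟩ := mem_image.mp hA
    exact hcard i
  · intro A hA A' hA'
    obtain ⟨i, -, rfl⟩ := mem_image.mp hA
    obtain ⟨j, -, rfl⟩ := mem_image.mp hA'
    exact hint i j
  · intro B hB
    rw [Finset.filter_image, card_image_of_injective _ hL]
    exact havoid B hB

lemma fano : HasFam 3 2 := by
  refine hasFam_of_lines (N := 7) (fun i => {i, i + 1, i + 3}) (by decide +kernel)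
    (by decide +kernel) (by decide +kernel) ?_
  intro B hB
  have hB' : B.card = 0 ∨ B.card = 1 ∨ B.card = 2 := by omega
  rcases hB' with h | h | h
  · rw [h]
    rw [card_eq_zero] at h
    subst h
    decide +kernel
  · rw [h]
    obtain ⟨x, rfl⟩ := card_eq_one.mp h
    revert x
    decide +kernel
  · rw [h]
    obtain ⟨x, y, -, rfl⟩ := card_eq_two.mp h
    clear h hB
    revert x y
    decide +kernel

lemma plane3 : HasFam 4 2 := by
  refine hasFam_of_lines (N := 13) (fun i => {i, i + 1, i + 3, i + 9}) (by decide +kernel)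
    (by decide +kernel) (by decide +kernel) ?_
  intro B hB
  have hB' : B.card = 0 ∨ B.card = 1 ∨ B.card = 2 ∨ B.card = 3 := by omega
  rcases hB' with h | h | h | h
  · rw [h]
    rw [card_eq_zero] at h
    subst h
    decide +kernel
  · rw [h]
    obtain ⟨x, rfl⟩ := card_eq_one.mp h
    revert x
    decide +kernel
  · rw [h]
    obtain ⟨x, y, -, rfl⟩ := card_eq_two.mp h
    clear h hB
    revert x y
    decide +kernel
  · rw [h]
    obtain ⟨x, y, z, -, -, -, rfl⟩ := card_eq_three.mp h
    clear h hB
    revert x y z
    decide +kernel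

lemma five : HasFam 5 2 := by
  refine step (m := 3) le_rfl fano (by norm_num) ?_
  intro d d' h1 h2 h3 h4
  interval_cases d' <;> omega

lemma all : ∀ i : ℕ, HasFam (4 + 2 * i) (2 ^ (i + 1)) ∧ HasFam (5 + 2 * i) (2 ^ (i + 1)) := by
  have key : ∀ m a : ℕ, 4 ≤ m → HasFam m a → 4 * a ≤ 2 ^ (m - 1) → HasFam (m + 2) (2 * a) := by
    intro m a hm hf hcap
    refine step (by omega) hf (by omega) ?_
    intro d d' h1 h2 h3 h4
    obtain ⟨e, rfl⟩ : ∃ e, m = d' + e := ⟨m - d', by omega⟩
    have h5 : d + (d' + e) - d' = d + e := by omega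
    rw [h5]
    have h6 : 2 * d ≤ (d + e) * d' := by
      rcases Nat.lt_or_ge d' 2 with hd | hd
      · have : d' = 1 := by omega
        subst this
        omega
      · nlinarith [Nat.mul_le_mul (Nat.le_add_right d e) hd]
    calc 2 * a * d = (2 * d) * a := by ring
      _ ≤ (d + e) * d' * a := Nat.mul_le_mul_right _ h6
  intro i
  induction i with
  | zero => exact ⟨plane3, five⟩
  | succ i ih =>
    have hp : ∀ j : ℕ, 4 * 2 ^ (i + 1) ≤ 2 ^ (3 + 2 * i + j) := by
      intro j
      have : (4 : ℕ) * 2 ^ (i + 1) = 2 ^ (i + 3) := by ring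
      rw [this]
      exact Nat.pow_le_pow_right (by norm_num) (by omega)
    have e1 : 2 ^ (i + 1 + 1) = 2 * 2 ^ (i + 1) := by ring
    rw [e1]
    constructor
    · have := key (4 + 2 * i) (2 ^ (i + 1)) (by omega) ih.1 (by
        have := hp 0
        have e : 4 + 2 * i - 1 = 3 + 2 * i + 0 := by omega
        rw [e]; exact this)
      have e : 4 + 2 * (i + 1) = 4 + 2 * i + 2 := by ring
      rw [e]; exact this
    · have := key (5 + 2 * i) (2 ^ (i + 1)) (by omega) ih.2 (by
        have := hp 1
        have e : 5 + 2 * i - 1 = 3 + 2 * i + 1 := by omega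
        rw [e]; exact this)
      have e : 5 + 2 * (i + 1) = 5 + 2 * i + 2 := by ring
      rw [e]; exact this

/-! ### Transfer to `Fin n` and to `m` -/

lemma le_m {k a : ℕ} (hk : 1 ≤ k) (ha : 1 ≤ a) (h : HasFam k a) : a ≤ m k (k - 1) := by
  classical
  obtain ⟨V, _, _, F, hcard, hint, havoid⟩ := h
  let e : V ≃ Fin (Fintype.card V) := Fintype.equivFin V
  let G : Finset (Finset (Fin (Fintype.card V))) := F.map (Finset.mapEmbedding e.toEmbedding).toEmbedding
  have hGmem : ∀ A : Finset (Fin (Fintype.card V)), A ∈ G ↔ ∃ A' ∈ F, A'.map e.toEmbedding = A := by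
    intro A
    simp only [G, mem_map]
    rfl
  have hGcard : ∀ A ∈ G, A.card = k := by
    intro A hA
    obtain ⟨A', hA', rfl⟩ := (hGmem A).mp hA
    rw [card_map]
    exact hcard _ hA'
  have hGint : ∀ A ∈ G, ∀ A' ∈ G, (A ∩ A').Nonempty := by
    intro A hA B hB
    obtain ⟨A', hA', rfl⟩ := (hGmem A).mp hA
    obtain ⟨B', hB', rfl⟩ := (hGmem B).mp hB
    rw [← map_inter]
    exact (hint _ hA' _ hB').map
  have hGav : ∀ B : Finset (Fin (Fintype.card V)), B.card < k →
      a * (k - B.card) ≤ (avoiding G B).card := by
    intro B hB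
    have h1 := havoid (B.map e.symm.toEmbedding) (by rw [card_map]; exact hB)
    rw [card_map] at h1
    refine h1.trans ?_
    have : ((F.filter (fun S => Disjoint S (B.map e.symm.toEmbedding))).map
        (Finset.mapEmbedding e.toEmbedding).toEmbedding) ⊆ avoiding G B := by
      intro X hX
      rw [mem_map] at hX
      obtain ⟨S, hS, rfl⟩ := hX
      rw [mem_filter] at hS
      unfold avoiding
      rw [mem_filter]
      refine ⟨(hGmem _).mpr ⟨S, hS.1, rfl⟩, ?_⟩
      rw [← Finset.disjoint_iff_inter_eq_empty, Finset.disjoint_left]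
      intro x hx hxB
      change x ∈ S.map e.toEmbedding at hx
      rw [mem_map] at hx
      obtain ⟨v, hv, rfl⟩ := hx
      refine Finset.disjoint_left.mp hS.2 hv ?_
      rw [mem_map]
      exact ⟨_, hxB, by simp⟩
    have h2 := card_le_card this
    rwa [card_map] at h2
  have hcov : coveringNumber G = k := by
    unfold coveringNumber
    have hne : G.Nonempty := by
      have := hGav ∅ (by rw [card_empty]; omega)
      rw [card_empty, Nat.sub_zero] at this
      have hpos : 0 < (avoiding G ∅).card := lt_of_lt_of_le (Nat.mul_pos ha hk) this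
      obtain ⟨A, hA⟩ := card_pos.mp hpos
      exact ⟨A, (mem_filter.mp hA).1⟩
    obtain ⟨A, hA⟩ := hne
    apply le_antisymm
    · exact Nat.sInf_le ⟨A, hGcard A hA, fun A' hA' => hGint A hA A' hA'⟩
    · apply le_csInf
      · exact ⟨k, A, hGcard A hA, fun A' hA' => hGint A hA A' hA'⟩
      · rintro t ⟨T, rfl, hT⟩
        by_contra hlt
        push Not at hlt
        have h1 := hGav T hlt
        have hpos : 0 < (avoiding G T).card :=
          lt_of_lt_of_le (Nat.mul_pos ha (by omega)) h1
        obtain ⟨A', hA'⟩ := card_pos.mp hpos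
        unfold avoiding at hA'
        rw [mem_filter] at hA'
        obtain ⟨x, hx⟩ := hT A' hA'.1
        rw [inter_comm, hA'.2] at hx
        simp at hx
  have hmin : a ≤ minAvoiding G (k - 1) := by
    unfold minAvoiding
    apply le_csInf
    · obtain ⟨B, hB⟩ : ∃ B : Finset (Fin (Fintype.card V)), B.card = k - 1 := by
        have hne : G.Nonempty := by
          have := hGav ∅ (by rw [card_empty]; omega)
          rw [card_empty, Nat.sub_zero] at this
          have hpos : 0 < (avoiding G ∅).card := lt_of_lt_of_le (Nat.mul_pos ha hk) this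
          obtain ⟨A, hA⟩ := card_pos.mp hpos
          exact ⟨A, (mem_filter.mp hA).1⟩
        obtain ⟨A, hA⟩ := hne
        obtain ⟨B, -, hB⟩ := exists_subset_card_eq (s := A) (n := k - 1)
          (by rw [hGcard A hA]; omega)
        exact ⟨B, hB⟩
      exact ⟨_, B, hB, rfl⟩
    · rintro s ⟨B, hB, rfl⟩
      have := hGav B (by omega)
      rw [hB] at this
      have e2 : k - (k - 1) = 1 := by omega
      rw [e2, mul_one] at this
      exact this
  refine hmin.trans ?_
  unfold m
  apply le_csSup
  · refine ⟨k ^ k, ?_⟩
    rintro r ⟨n, F', ⟨hc, hi⟩, hτ, rfl⟩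
    have hlow : ∀ S : Finset (Fin n), S.card < k → ∃ A ∈ F', Disjoint A S := by
      intro S hS
      by_contra hcon
      push Not at hcon
      have : coveringNumber F' ≤ S.card := by
        unfold coveringNumber
        apply Nat.sInf_le
        refine ⟨S, rfl, ?_⟩
        intro A hA
        have := hcon A hA
        rw [Finset.not_disjoint_iff_nonempty_inter, inter_comm] at this
        exact this
      omega
    have h1 := card_le_of_cover F' hc hlow hi k ∅ (by simp)
    simp only [empty_subset, filter_true] at h1
    obtain ⟨A, hA, -⟩ := hlow ∅ (by rw [card_empty]; omega)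
    obtain ⟨B, -, hB⟩ := exists_subset_card_eq (s := A) (n := k - 1) (by rw [hc A hA]; omega)
    have h2 : minAvoiding F' (k - 1) ≤ (avoiding F' B).card := Nat.sInf_le ⟨B, hB, rfl⟩
    exact h2.trans ((card_le_card (filter_subset _ _)).trans h1)
  · exact ⟨_, G, ⟨hGcard, hGint⟩, hcov, rfl⟩

/-- There is an absolute constant `c > 1` with `m(k, k - 1) > c ^ k` for every `k ≥ 3`. -/
theorem result : ∃ c : ℝ, 1 < c ∧ ∀ k : ℕ, 3 ≤ k → c ^ k < (m k (k - 1) : ℝ) := by
  refine ⟨11 / 10, by norm_num, ?_⟩
  intro k hk
  have hpow : ∀ i : ℕ, ((11 : ℝ) / 10) ^ (5 + 2 * i) < 2 ^ (i + 1) := by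
    intro i
    induction i with
    | zero => norm_num
    | succ i ih =>
      have e1 : ((11 : ℝ) / 10) ^ (5 + 2 * (i + 1)) = (11 / 10) ^ (5 + 2 * i) * (121 / 100) := by
        rw [show 5 + 2 * (i + 1) = (5 + 2 * i) + 2 by ring, pow_add]
        norm_num
      have e2 : (2 : ℝ) ^ (i + 1 + 1) = 2 ^ (i + 1) * 2 := by ring
      rw [e1, e2]
      have h0 : (0 : ℝ) < (11 / 10) ^ (5 + 2 * i) := by positivity
      nlinarith
  rcases Nat.lt_or_ge k 4 with h3 | h4
  · have : k = 3 := by omega
    subst this
    have h := le_m (by norm_num) (by norm_num) fano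
    have h' : (2 : ℝ) ≤ (m 3 (3 - 1) : ℝ) := by exact_mod_cast h
    refine lt_of_lt_of_le ?_ h'
    norm_num
  · obtain ⟨i, hi⟩ : ∃ i, k = 4 + 2 * i ∨ k = 5 + 2 * i := ⟨(k - 4) / 2, by omega⟩
    rcases hi with rfl | rfl
    · have h := le_m (by omega) (Nat.pos_of_ne_zero (by positivity)) (all i).1
      have h' : (2 : ℝ) ^ (i + 1) ≤ (m (4 + 2 * i) (4 + 2 * i - 1) : ℝ) := by exact_mod_cast h
      refine lt_of_lt_of_le ?_ h'
      refine lt_trans ?_ (hpow i)
      apply pow_lt_pow_right₀ (by norm_num) (by omega)
    · have h := le_m (by omega) (Nat.pos_of_ne_zero (by positivity)) (all i).2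
      have h' : (2 : ℝ) ^ (i + 1) ≤ (m (5 + 2 * i) (5 + 2 * i - 1) : ℝ) := by exact_mod_cast h
      exact lt_of_lt_of_le (hpow i) h'

end Pool.Agent.Results.MP_2b3591_co.ExpGrowth
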